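import Pool.Agent.Run7.h582.FM.Em3

/-!
# The Frobenius angles at `s` consecutive primes: all boxes, with square-root error against the finite-field model, for the
curves `y² = x³ + a(t) x + b(t)` with ALL integers `t` within `N n ^ θ` of `lam n * x + c n`, for almost every `x` with
respect to every measure with polynomial Fourier decay

Let `N n ≥ exp (n ^ η)` and let `lam n`, `c n` be real numbers with `N n / log ^ T (N n) ≤ lam n ≤ B N n` and
`|c n| ≤ B N n`. The theorem is about ALL the integers `t` at a distance of at most `(N n) ^ θ` from `lam n * x + c n`, for all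
large `n`, for almost every `x` with respect to EVERY finite Borel measure `μ` with bounded support whose Fourier transform is
`O (|ξ| ^ (-δ'))` for some `δ' > 0` (for example the natural measures on many sets of measure zero). The exponent `θ` depends
only on `μ`, `s` and `δ`, not on the sequences. With constant polynomials `a` one gets the curves `y² = x³ + a x + t`, for
a list of at most `(N n) ^ θ` arbitrary integers `a` (which may be much larger than `t`).

From Mathlib: `Nat.nth Nat.Prime k`: the prime with the index `k`, starting with `k = 0`; `Set.OrdConnected`: intervals.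

Method: a measure with polynomial Fourier decay is replaced by finite families of real numbers with the same exponential
sums (`Pool.Agent.Run7.h582.FM`); the characteristic functions of the integer parts of the members decay at all frequencies
which are not close to integers, so that the families are uniformly distributed in residue classes with a power saving, for
all moduli up to a power (with the theorems of helper193 and helper384, `Pool.Agent.N193.PS`, `Pool.Agent.N384.MQ`); the high
moments and the passage to all boxes are from the starting files (`Pool.Agent.TH869.SQ`); then the lemma of Borel and Cantelli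
is used.
-/

set_option autoImplicit false
set_option maxHeartbeats 4000000

namespace Pool.Agent.Results.MP_29be01_nt.FourierDecayCurves

open Finset Filter Polynomial MeasureTheory

/-- `N n ≥ exp (n ^ η)`, `|c n| ≤ B N n` and `N n / log ^ T (N n) ≤ lam n ≤ B N n` for large `n`. -/
def Scales (η : ℝ) (B T : ℕ) (N : ℕ → ℕ) (lam c : ℕ → ℝ) : Prop :=
  ∀ᶠ n : ℕ in atTop, Real.exp ((n : ℝ) ^ η) ≤ N n ∧ |c n| ≤ B * N n ∧ lam n ≤ B * N n ∧
    (N n : ℝ) ≤ lam n * Real.log (N n) ^ T

/-- `μ` is a finite Borel measure with bounded support and its Fourier transform `ξ ↦ ∫ exp (i ξ t) dμ (t)` is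
`O (|ξ| ^ (-δ))` for some `δ > 0`. -/
def FourierDecay (μ : Measure ℝ) : Prop :=
  IsFiniteMeasure μ ∧ (∃ R : ℝ, μ (Set.Icc (-R) R)ᶜ = 0) ∧ ∃ C δ : ℝ, 0 < δ ∧ ∀ ξ : ℝ, ξ ≠ 0 →
    ‖∫ t : ℝ, Complex.exp (((ξ * t : ℝ) : ℂ) * Complex.I) ∂μ‖ ≤ C * |ξ| ^ (-δ)

/-- The number of the solutions `(x, y)` of `y² = x³ + A x + B` modulo `p`. -/
def points (p : ℕ) (A B : ℤ) : ℕ :=
  ((range p ×ˢ range p).filter
    (fun xy : ℕ × ℕ => (p : ℤ) ∣ (xy.2 : ℤ) ^ 2 - ((xy.1 : ℤ) ^ 3 + A * xy.1 + B))).card

/-- The Frobenius angle in `[0, 1]` of the curve `y² = x³ + A x + B` at the prime `p`: it is `θ` with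
`2 p ^ (1 / 2) cos (π θ) = p + 1 - #E(F_p) = p - points p A B`, and `1 / 2` if `p ∣ 2 (4 A³ + 27 B²)`. -/
noncomputable def angle (A B : ℤ) (p : ℕ) : ℝ :=
  if (p : ℤ) ∣ 2 * (4 * A ^ 3 + 27 * B ^ 2) then 1 / 2
  else Real.arccos (((p : ℝ) - points p A B) / (2 * Real.sqrt p)) / Real.pi

open Classical in
/-- The number of the `k < K` such that the angles of the curve `y² = x³ + A x + B` at the `s` consecutive primes with the
numbers `k, ..., k + s - 1` (the primes are numbered from `0`) are in `I 0, ..., I (s - 1)`. -/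
noncomputable def boxCount {s : ℕ} (A B : ℤ) (I : Fin s → Set ℝ) (K : ℕ) : ℕ :=
  ((range K).filter (fun k => ∀ i : Fin s, angle A B (Nat.nth Nat.Prime (k + i)) ∈ I i)).card

open Classical in
/-- The proportion of the residues `t` modulo `p` for which the angle of `y² = x³ + a(t) x + b(t)` at `p` is in `S`. -/
noncomputable def proportion (a b : ℤ[X]) (p : ℕ) (S : Set ℝ) : ℝ :=
  ((range p).filter (fun t : ℕ => angle (a.eval (t : ℤ)) (b.eval (t : ℤ)) p ∈ S)).card / p

/-- The expected number: the sum over `k < K` of the product of the proportions at the `s` primes. -/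
noncomputable def boxModel {s : ℕ} (a b : ℤ[X]) (I : Fin s → Set ℝ) (K : ℕ) : ℝ :=
  ∑ k ∈ range K, ∏ i : Fin s, proportion a b (Nat.nth Nat.Prime (k + i)) (I i)

theorem points_congr (p : ℕ) {A A' B B' : ℤ} (hA : (p : ℤ) ∣ A - A') (hB : (p : ℤ) ∣ B - B') :
    points p A B = points p A' B' := by
  unfold points
  congr 1
  apply filter_congr
  intro xy _
  have h : (p : ℤ) ∣ ((xy.2 : ℤ) ^ 2 - ((xy.1 : ℤ) ^ 3 + A * xy.1 + B)) -
      ((xy.2 : ℤ) ^ 2 - ((xy.1 : ℤ) ^ 3 + A' * xy.1 + B')) := by
    have e : ((xy.2 : ℤ) ^ 2 - ((xy.1 : ℤ) ^ 3 + A * xy.1 + B)) -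
      ((xy.2 : ℤ) ^ 2 - ((xy.1 : ℤ) ^ 3 + A' * xy.1 + B')) = -((A - A') * xy.1 + (B - B')) := by ring
    rw [e]
    exact (dvd_add (hA.mul_right _) hB).neg_right
  exact (dvd_iff_dvd_of_dvd_sub h)

theorem angle_congr (p : ℕ) {A A' B B' : ℤ} (hA : (p : ℤ) ∣ A - A') (hB : (p : ℤ) ∣ B - B') :
    angle A B p = angle A' B' p := by
  unfold angle
  rw [points_congr p hA hB]
  have h : (p : ℤ) ∣ 2 * (4 * A ^ 3 + 27 * B ^ 2) - 2 * (4 * A' ^ 3 + 27 * B' ^ 2) := by
    have e : 2 * (4 * A ^ 3 + 27 * B ^ 2) - 2 * (4 * A' ^ 3 + 27 * B' ^ 2) =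
      (A - A') * (8 * (A ^ 2 + A * A' + A' ^ 2)) + (B - B') * (54 * (B + B')) := by ring
    rw [e]
    exact dvd_add (hA.mul_right _) (hB.mul_right _)
  have h2 := dvd_iff_dvd_of_dvd_sub h
  by_cases h3 : (p : ℤ) ∣ 2 * (4 * A ^ 3 + 27 * B ^ 2)
  · rw [if_pos h3, if_pos (h2.mp h3)]
  · rw [if_neg h3, if_neg (fun h4 => h3 (h2.mpr h4))]


open Classical in
/-- Let `μ` be a measure with `FourierDecay`, let `s ≥ 1` and `δ > 0`. There are `θ > 0` and `C` such that for all `η > 0` and
all sequences with `Scales η B T N lam c` the following holds. For every `n` let pairs of polynomials `a n l, b n l ∈ ℤ[T]`,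
`l < L n`, be given, `L n ≤ (N n) ^ θ` for large `n`.

For `μ`-almost every `x`, for all large `n`, for ALL the integers `t` at a distance of at most `(N n) ^ θ` from `lam n * x + c n`
and all `l`: for EVERY `K ≤ (N n) ^ θ` and EVERY product of `s` intervals, the number of the `k < K` such that the Frobenius
angles of the elliptic curve `y² = x³ + a n l (t) x + b n l (t)` at the `s` consecutive primes with the numbers
`k, ..., k + s - 1` are in the intervals differs from the expected number (the sum over `k < K` of the product of the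
proportions, over the residues modulo these primes, in the family) by at most `C K ^ (1 / 2 + δ) (1 + log (N n)) ^ (1 / 2)`. -/
theorem result (μ : Measure ℝ) (hμ : FourierDecay μ) (s : ℕ) (hs : 1 ≤ s) (δ : ℝ) (hδ : 0 < δ) :
    ∃ θ C : ℝ, 0 < θ ∧ 0 < C ∧ ∀ η : ℝ, 0 < η → ∀ (B T : ℕ) (N : ℕ → ℕ) (lam c : ℕ → ℝ),
      Scales η B T N lam c → ∀ (L : ℕ → ℕ) (a b : ∀ n, Fin (L n) → ℤ[X]),
      (∀ᶠ n : ℕ in atTop, (L n : ℝ) ≤ (N n : ℝ) ^ θ) →
      ∀ᵐ x ∂μ, ∀ᶠ n : ℕ in atTop, ∀ t : ℤ, |(t : ℝ) - (lam n * x + c n)| ≤ (N n : ℝ) ^ θ → ∀ l : Fin (L n), ∀ K : ℕ,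
        (K : ℝ) ≤ (N n : ℝ) ^ θ → ∀ I : Fin s → Set ℝ, (∀ i, (I i).OrdConnected) →
          |(boxCount ((a n l).eval t) ((b n l).eval t) I K : ℝ) - boxModel (a n l) (b n l) I K| ≤
            C * ((K : ℝ) ^ (1 / 2 + δ) * √(1 + Real.log (N n))) := by
  obtain ⟨θ, C, h1, _, h3, H⟩ := Pool.Agent.Run7.h582.FM.ae_consec μ hμ s hs δ hδ
  refine ⟨θ, C, h1, by linarith, fun η hη B T N lam c hS L a b hL => ?_⟩
  have hE := H η hη B T N lam c hS L (fun n l p z => angle ((a n l).eval z) ((b n l).eval z) p) (by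
    intro n l p z
    have e : z + (p : ℤ) - z = p := by ring
    have hd : ∀ f : ℤ[X], (p : ℤ) ∣ f.eval (z + (p : ℤ)) - f.eval z := by
      intro f
      have := f.sub_dvd_eval_sub (z + (p : ℤ)) z
      rwa [e] at this
    exact angle_congr p (hd (a n l)) (hd (b n l))) hL
  filter_upwards [hE] with x hx
  filter_upwards [hx] with n hn t ht l K hK I hI
  have h := hn t ht l K hK I hI
  rw [sum_sub_distrib] at h
  have e1 : (boxCount ((a n l).eval t) ((b n l).eval t) I K : ℝ) = ∑ k ∈ range K,
      Pool.Agent.TH869.SQ.ind I (fun i : Fin s =>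
        angle ((a n l).eval t) ((b n l).eval t) (Pool.Agent.TH869.SQ.pr (k + i))) := by
    unfold boxCount Pool.Agent.TH869.SQ.ind Pool.Agent.TH869.SQ.pr
    rw [sum_boole]
  have e2 : boxModel (a n l) (b n l) I K = ∑ k ∈ range K, ∏ i : Fin s,
      Pool.Agent.TH869.SQ.mean (Pool.Agent.TH869.SQ.pr (k + i)) (fun t =>
        Pool.Agent.TH869.SQ.ind1 (I i)
          (angle ((a n l).eval (t : ℤ)) ((b n l).eval (t : ℤ)) (Pool.Agent.TH869.SQ.pr (k + i)))) := by
    unfold boxModel proportion Pool.Agent.TH869.SQ.mean Pool.Agent.TH869.SQ.ind1 Pool.Agent.TH869.SQ.pr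
    refine sum_congr rfl fun k _ => prod_congr rfl fun i _ => ?_
    rw [sum_boole]
  rw [e1, e2]
  exact h

end Pool.Agent.Results.MP_29be01_nt.FourierDecayCurves
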