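import Pool.Agent.Run7.h712.CB.Main

/-!
# The Frobenius angles at `s` consecutive primes: all boxes and all large `K`, with square-root error against the finite-field model, for
almost all members of thin families of `r`-tuples of elliptic curves

From Mathlib: `Nat.nth Nat.Prime k`: the prime with the index `k`, starting with `k = 0`; `Set.OrdConnected`: intervals.

Method: high moments over well distributed families of integer vectors (`Pool.Agent.N647.TS.lawW` of helper647, `Pool.Agent.N666.TM` and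
`Pool.Agent.N54.ME` for the families), the passage to all boxes of the starting file `Pool.Agent.TH869.SQ.Bx`, and the three kinds of thin
families of `Pool.Agent.Run7.h712.TS.Kinds`.
-/

set_option autoImplicit false

namespace Pool.Agent.Results.MP_29be01_nt.ThinFamilies

open Finset Filter MeasureTheory

/-- The number of the solutions `(x, y)` of `y² = x³ + A x + B` modulo `p`. -/
def points (p : ℕ) (A B : ℤ) : ℕ :=
  ((range p ×ˢ range p).filter
    (fun xy : ℕ × ℕ => (p : ℤ) ∣ (xy.2 : ℤ) ^ 2 - ((xy.1 : ℤ) ^ 3 + A * xy.1 + B))).card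

/-- The Frobenius angle in `[0, 1]` of the curve `y² = x³ + A x + B` at the prime `p`: it is `θ` with
`2 p ^ (1 / 2) cos (π θ) = p + 1 - #E(F_p) = p - points p A B`, and `1 / 2` if `p ∣ 2 (4 A³ + 27 B²)`. -/
noncomputable def angle (A B : ℤ) (p : ℕ) : ℝ :=
  if (p : ℤ) ∣ 2 * (4 * A ^ 3 + 27 * B ^ 2) then 1 / 2
  else Real.arccos (((p : ℝ) - points p A B) / (2 * Real.sqrt p)) / Real.pi

section
variable {d r s : ℕ}

/-- The Frobenius angle at `p` of the member `y² = x³ + A(c) x + B(c)`. -/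
noncomputable def angleAt (A B : MvPolynomial (Fin d) ℤ) (c : Fin d → ℤ) (p : ℕ) : ℝ :=
  angle (MvPolynomial.eval c A) (MvPolynomial.eval c B) p

open Classical in
/-- The number of the `k < K` such that for all `l < r` the angles of the curve `y² = x³ + A_l(c) x + B_l(c)` at the `s` consecutive primes
with the numbers `k, ..., k + s - 1` (the primes are numbered from `0`) are in `I 0 l, ..., I (s - 1) l`. -/
noncomputable def boxCount (A B : Fin r → MvPolynomial (Fin d) ℤ) (c : Fin d → ℤ) (I : Fin s → Fin r → Set ℝ) (K : ℕ) : ℕ :=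
  ((range K).filter (fun k => ∀ (i : Fin s) (l : Fin r), angleAt (A l) (B l) c (Nat.nth Nat.Prime (k + i)) ∈ I i l)).card

open Classical in
/-- The proportion of the vectors `v` of residues modulo `p` for which, for all `l < r`, the angle of `y² = x³ + A_l(v) x + B_l(v)` at `p` is
in `T l`. -/
noncomputable def proportion (A B : Fin r → MvPolynomial (Fin d) ℤ) (p : ℕ) (T : Fin r → Set ℝ) : ℝ :=
  ((Fintype.piFinset fun _ : Fin d => range p).filter
    (fun v => ∀ l, angleAt (A l) (B l) (fun i => (v i : ℤ)) p ∈ T l)).card / (p : ℝ) ^ d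

/-- The expected number: the sum over `k < K` of the product of the proportions at the `s` primes. -/
noncomputable def boxModel (A B : Fin r → MvPolynomial (Fin d) ℤ) (I : Fin s → Fin r → Set ℝ) (K : ℕ) : ℝ :=
  ∑ k ∈ range K, ∏ i : Fin s, proportion A B (Nat.nth Nat.Prime (k + i)) (I i)

/-- For ALL `K` with `y ≤ K ≤ N ^ κ` and ALL boxes the number `boxCount` differs from `boxModel` by at most `C K ^ (1 / 2 + δ)`. -/
def Close (s : ℕ) (A B : Fin r → MvPolynomial (Fin d) ℤ) (δ κ C : ℝ) (N y : ℕ) (c : Fin d → ℤ) : Prop :=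
  ∀ K : ℕ, y ≤ K → (K : ℝ) ≤ (N : ℝ) ^ κ → ∀ I : Fin s → Fin r → Set ℝ, (∀ i l, (I i l).OrdConnected) →
    |(boxCount A B c I K : ℝ) - boxModel A B I K| ≤ C * (K : ℝ) ^ (1 / 2 + δ)

/-- the box of the integer vectors with `a l < c l ≤ a l + L l` -/
noncomputable def cube (a : Fin d → ℤ) (L : Fin d → ℕ) : Finset (Fin d → ℤ) := Fintype.piFinset fun l => Ioc (a l) (a l + L l)

open Classical in
/-- All but the proportion `y ^ (-E)` of the members in any box with sides at least `N`, anywhere, are `Close`. -/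
def Boxes (s : ℕ) (A B : Fin r → MvPolynomial (Fin d) ℤ) (δ : ℝ) (E : ℕ) : Prop :=
  ∃ κ C : ℝ, 0 < κ ∧ 0 < C ∧ ∃ y₀ : ℕ, 16 ≤ y₀ ∧ ∀ y N : ℕ, y₀ ≤ y → 2 ≤ N → ∀ (a : Fin d → ℤ) (L : Fin d → ℕ), (∀ l, N ≤ L l) →
    (((cube a L).filter fun c => ¬ Close s A B δ κ C N y c).card : ℝ) ≤ 1 / (y : ℝ) ^ E * (cube a L).card

open Classical in
/-- All but the proportion `y ^ (-E)` of the members `x t`, for the integers `t ∈ (N, 2 N]` and for the primes `t ∈ (N, 2 N]`, are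
`Close`. -/
def Almost (s : ℕ) (A B : Fin r → MvPolynomial (Fin d) ℤ) (δ : ℝ) (E : ℕ) (x : ℕ → Fin d → ℤ) : Prop :=
  ∃ κ C : ℝ, 0 < κ ∧ 0 < C ∧ ∃ y₀ : ℕ, 16 ≤ y₀ ∧ ∀ y N : ℕ, y₀ ≤ y → 2 ≤ N →
    (((Ioc N (2 * N)).filter fun t => ¬ Close s A B δ κ C N y (x t)).card : ℝ) ≤ 1 / (y : ℝ) ^ E * (Ioc N (2 * N)).card ∧
    ((((Ioc N (2 * N)).filter Nat.Prime).filter fun t => ¬ Close s A B δ κ C N y (x t)).card : ℝ) ≤
      1 / (y : ℝ) ^ E * ((Ioc N (2 * N)).filter Nat.Prime).card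

/-- `Almost`, for ALL `s ≥ 1`, ALL `r`, ALL `r`-tuples of families with `d` parameters, ALL `δ > 0` and ALL `E`. -/
def AlmostAll (x : ℕ → Fin d → ℤ) : Prop :=
  ∀ (s r E : ℕ) (δ : ℝ) (A B : Fin r → MvPolynomial (Fin d) ℤ), 1 ≤ s → 0 < δ → Almost s A B δ E x

/-- The generalised polynomial `∑ t ∈ F, a t * X ^ t` has the leading exponent `c`, which is positive and not an integer, and a
positive leading coefficient. -/
def Admissible (F : Finset ℝ) (a : ℝ → ℝ) (c : ℝ) : Prop :=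
  c ∈ F ∧ (∀ t ∈ F, t ≤ c) ∧ 0 < c ∧ (∀ k : ℕ, c ≠ k) ∧ 0 < a c

/-- The functions `F t` have separated derivatives and increasing second derivatives on `[u, v]`, for large `t`. -/
def Separated (ρ u v : ℝ) (F : ℕ → ℝ → ℝ) : Prop :=
  (∀ n, ContDiff ℝ 2 (F n)) ∧ ∃ n₀ : ℕ, ∀ n, n₀ ≤ n → ∀ x ∈ Set.Icc u v,
    (n : ℝ) ^ (ρ - 1) ≤ deriv (F (n + 1)) x - deriv (F n) x ∧
      deriv (deriv (F n)) x ≤ deriv (deriv (F (n + 1))) x

theorem points_congr (p : ℕ) {A A' B B' : ℤ} (hA : (p : ℤ) ∣ A - A') (hB : (p : ℤ) ∣ B - B') :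
    points p A B = points p A' B' := by
  unfold points
  congr 1
  apply filter_congr
  intro xy _
  have h : (p : ℤ) ∣ ((xy.2 : ℤ) ^ 2 - ((xy.1 : ℤ) ^ 3 + A * xy.1 + B)) -
      ((xy.2 : ℤ) ^ 2 - ((xy.1 : ℤ) ^ 3 + A' * xy.1 + B')) := by
    have e : ((xy.2 : ℤ) ^ 2 - ((xy.1 : ℤ) ^ 3 + A * xy.1 + B)) -
      ((xy.2 : ℤ) ^ 2 - ((xy.1 : ℤ) ^ 3 + A' * xy.1 + B')) = -((A - A') * xy.1 + (B - B')) := by ring
    rw [e]
    exact (dvd_add (hA.mul_right _) hB).neg_right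
  exact (dvd_iff_dvd_of_dvd_sub h)

theorem angle_congr (p : ℕ) {A A' B B' : ℤ} (hA : (p : ℤ) ∣ A - A') (hB : (p : ℤ) ∣ B - B') :
    angle A B p = angle A' B' p := by
  unfold angle
  rw [points_congr p hA hB]
  have h : (p : ℤ) ∣ 2 * (4 * A ^ 3 + 27 * B ^ 2) - 2 * (4 * A' ^ 3 + 27 * B' ^ 2) := by
    have e : 2 * (4 * A ^ 3 + 27 * B ^ 2) - 2 * (4 * A' ^ 3 + 27 * B' ^ 2) =
      (A - A') * (8 * (A ^ 2 + A * A' + A' ^ 2)) + (B - B') * (54 * (B + B')) := by ring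
    rw [e]
    exact dvd_add (hA.mul_right _) (hB.mul_right _)
  have h2 := dvd_iff_dvd_of_dvd_sub h
  by_cases h3 : (p : ℤ) ∣ 2 * (4 * A ^ 3 + 27 * B ^ 2)
  · rw [if_pos h3, if_pos (h2.mp h3)]
  · rw [if_neg h3, if_neg (fun h4 => h3 (h2.mpr h4))]

theorem eval_congr (p : ℕ) (A : MvPolynomial (Fin d) ℤ) {c c' : Fin d → ℤ} (h : ∀ i, (p : ℤ) ∣ c i - c' i) :
    (p : ℤ) ∣ MvPolynomial.eval c A - MvPolynomial.eval c' A := by
  induction A using MvPolynomial.induction_on with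
  | C a => simp
  | add f g hf hg =>
    have e : MvPolynomial.eval c (f + g) - MvPolynomial.eval c' (f + g) =
      (MvPolynomial.eval c f - MvPolynomial.eval c' f) + (MvPolynomial.eval c g - MvPolynomial.eval c' g) := by
      simp only [map_add]; ring
    rw [e]
    exact dvd_add hf hg
  | mul_X f i hf =>
    have e : MvPolynomial.eval c (f * MvPolynomial.X i) - MvPolynomial.eval c' (f * MvPolynomial.X i) =
      (MvPolynomial.eval c f - MvPolynomial.eval c' f) * c i + MvPolynomial.eval c' f * (c i - c' i) := by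
      simp only [map_mul, MvPolynomial.eval_X]; ring
    rw [e]
    exact dvd_add (hf.mul_right _) ((h i).mul_left _)

theorem angleAt_congr (A B : MvPolynomial (Fin d) ℤ) (p : ℕ) {c c' : Fin d → ℤ} (h : ∀ i, (p : ℤ) ∣ c i - c' i) :
    angleAt A B c p = angleAt A B c' p :=
  angle_congr p (eval_congr p A h) (eval_congr p B h)

open Pool.Agent.Run7.h712.CB (ind ind1)
open Pool.Agent.TH869.SQ (pr)
open Pool.Agent.Run7.h712.TS (nat nat_cast)

/-- the local functions -/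
noncomputable def loc (A B : Fin r → MvPolynomial (Fin d) ℤ) (p : ℕ) (v : Fin d → ℕ) (l : Fin r) : ℝ :=
  angleAt (A l) (B l) (fun i => (v i : ℤ)) p

theorem loc_per (A B : Fin r → MvPolynomial (Fin d) ℤ) (p : ℕ) (v : Fin d → ℕ) :
    loc A B p v = loc A B p (fun i => v i % p) := by
  funext l
  unfold loc
  apply angleAt_congr
  intro i
  push_cast
  exact Int.dvd_self_sub_emod

theorem prop_eq (A B : Fin r → MvPolynomial (Fin d) ℤ) (p : ℕ) (T : Fin r → Set ℝ) :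
    proportion A B p T = Pool.Agent.TH894.NE.mean d p (fun v => ind1 T (loc A B p v)) := by
  classical
  unfold proportion Pool.Agent.TH894.NE.mean ind1 Pool.Agent.TH894.NE.box loc
  rw [sum_boole, one_div, inv_mul_eq_div]

theorem count_eq (A B : Fin r → MvPolynomial (Fin d) ℤ) (c : Fin d → ℤ) (v : Fin d → ℕ) (K : ℕ)
    (h : ∀ k, k < K → ∀ i : Fin s, ∀ j, ((pr (k + i) : ℕ) : ℤ) ∣ c j - (v j : ℤ)) (I : Fin s → Fin r → Set ℝ) :
    (boxCount A B c I K : ℝ) = ∑ k ∈ range K, ind I (fun i => loc A B (pr (k + i)) v) := by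
  classical
  unfold boxCount ind
  rw [sum_boole]
  congr 2
  apply filter_congr
  intro k hk
  rw [mem_range] at hk
  refine forall_congr' fun i => forall_congr' fun l => ?_
  show angleAt (A l) (B l) c (pr (k + i)) ∈ I i l ↔ angleAt (A l) (B l) (fun i => (v i : ℤ)) (pr (k + i)) ∈ I i l
  rw [angleAt_congr (A l) (B l) (pr (k + i)) (h k hk i)]

open Classical in
theorem main_well (hs : 1 ≤ s) (A B : Fin r → MvPolynomial (Fin d) ℤ) (δ : ℝ) (hδ : 0 < δ) (E : ℕ)
    (κ : ℝ) (hκ : 0 < κ) (N₀ : ℕ) : ∃ κ' C : ℝ, 0 < κ' ∧ 0 < C ∧ ∃ y₀ : ℕ, 16 ≤ y₀ ∧ ∀ y M : ℕ, y₀ ≤ y → 2 ≤ M →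
      ∀ (S : Finset ℕ) (x : ℕ → Fin d → ℤ), (N₀ ≤ M → ∀ H : ℕ, (H : ℝ) ≤ (M : ℝ) ^ κ → Pool.Agent.N666.TM.Well S x H) →
      ((S.filter fun t => ¬ Close s A B δ κ' C M y (x t)).card : ℝ) ≤ 1 / (y : ℝ) ^ E * S.card := by
  obtain ⟨Me, x₀, C, hMe, hC, heng⟩ := Pool.Agent.Run7.h712.CB.engine d s r hs δ hδ E
  obtain ⟨Mf, hMf⟩ : ∃ Mf, Mf = Me * (2 * s + 1) := ⟨_, rfl⟩
  have hMf1 : 1 ≤ Mf := by rw [hMf]; exact Nat.succ_le_of_lt (by positivity)
  have hMfr : (1 : ℝ) ≤ Mf := by exact_mod_cast hMf1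
  have hm0 : 0 < min κ 1 := lt_min hκ one_pos
  obtain ⟨b, hb⟩ : ∃ b : ℕ, b = (4 * s ^ 2) ^ s := ⟨_, rfl⟩
  refine ⟨min κ 1 / Mf, C, by positivity, hC, x₀ + N₀ + b + 17, by omega, fun y M hy hM S x hw => ?_⟩
  have hM1 : (1 : ℝ) ≤ M := by exact_mod_cast (by omega : 1 ≤ M)
  have hM0 : (0 : ℝ) < M := by linarith
  by_cases hN : N₀ ≤ M
  · obtain ⟨H, hH⟩ : ∃ H, H = ⌊(M : ℝ) ^ κ⌋₊ := ⟨_, rfl⟩
    have hw' := hw hN H (by rw [hH]; exact Nat.floor_le (by positivity))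
    refine le_trans ?_ (heng S x H y hw' (by omega) (loc A B) (loc_per A B))
    refine Nat.cast_le.2 (card_le_card fun t ht => ?_)
    rw [mem_filter] at ht ⊢
    refine ⟨ht.1, fun hall => ht.2 ?_⟩
    intro K hyK hKN I hI
    have hK1 : 1 ≤ K := by omega
    have hKf : K ^ Mf ≤ H := by
      rw [hH]
      apply Nat.le_floor
      push_cast
      calc (K : ℝ) ^ Mf ≤ ((M : ℝ) ^ (min κ 1 / Mf)) ^ Mf := pow_le_pow_left₀ (Nat.cast_nonneg _) hKN _
        _ = (M : ℝ) ^ (min κ 1) := by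
            rw [← Real.rpow_natCast, ← Real.rpow_mul hM0.le]
            congr 1
            field_simp
        _ ≤ (M : ℝ) ^ κ := Real.rpow_le_rpow_of_exponent_le hM1 (min_le_left _ _)
    have hKe : K ^ Me ≤ 2 * H + 1 := by
      have : K ^ Me ≤ K ^ Mf := Nat.pow_le_pow_right hK1 (by rw [hMf]; nlinarith)
      omega
    have hX : Pool.Agent.Run7.h712.CB.X s K ≤ 2 * H + 1 := by
      have hbK : (4 * s ^ 2) ^ s ≤ K := by rw [← hb]; omega
      have h2 : K ^ (2 * s + 1) ≤ K ^ Mf := Nat.pow_le_pow_right hK1 (by rw [hMf]; nlinarith)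
      have h3 : Pool.Agent.Run7.h712.CB.X s K ≤ K ^ (2 * s + 1) := by
        unfold Pool.Agent.Run7.h712.CB.X
        rw [pow_succ, mul_comm]
        exact Nat.mul_le_mul_left _ hbK
      omega
    have h := hall K hyK hKe I hI
    rw [sum_sub_distrib] at h
    rw [count_eq A B (x t) (nat (Equiv.refl (Fin d)) H x t) K (fun k hk i j => by
      have h1 := Pool.Agent.Run7.h712.CB.pr_le_X hs K k hk i
      have h2 := nat_cast (Equiv.refl (Fin d)) H x t j (pr (k + i)) (Pool.Agent.TH869.SQ.pr_prime _).one_lt.le (by omega)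
      have h3 : (((x t j - ((nat (Equiv.refl (Fin d)) H x t j : ℕ) : ℤ) : ℤ)) : ZMod (pr (k + i))) = 0 := by
        push_cast
        rw [h2]
        simp
      exact (ZMod.intCast_zmod_eq_zero_iff_dvd _ _).1 h3) I]
    have h4 : boxModel A B I K = ∑ k ∈ range K, ∏ i : Fin s,
        Pool.Agent.TH894.NE.mean d (pr (k + i)) (fun v => ind1 (I i) (loc A B (pr (k + i)) v)) := by
      unfold boxModel
      refine sum_congr rfl fun k _ => prod_congr rfl fun i _ => ?_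
      exact prop_eq A B (pr (k + i)) (I i)
    rw [h4]
    exact h
  · have h0 : (S.filter fun t => ¬ Close s A B δ (min κ 1 / Mf) C M y (x t)) = ∅ := by
      apply filter_eq_empty_iff.2
      intro t _ hcl
      apply hcl
      intro K hyK hKN
      exfalso
      have h1 : (M : ℝ) ^ (min κ 1 / Mf) ≤ M := by
        have h2 : min κ 1 / Mf ≤ 1 := by
          rw [div_le_one (by linarith)]
          exact (min_le_right _ _).trans hMfr
        calc (M : ℝ) ^ (min κ 1 / Mf) ≤ (M : ℝ) ^ (1 : ℝ) := Real.rpow_le_rpow_of_exponent_le hM1 h2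
          _ = M := Real.rpow_one _
      have h3 : K ≤ M := by exact_mod_cast hKN.trans h1
      omega
    rw [h0, card_empty, Nat.cast_zero]
    positivity

theorem close_mono (A B : Fin r → MvPolynomial (Fin d) ℤ) {δ δ' κ C : ℝ} (h : δ' ≤ δ) (hC : 0 < C) {N y : ℕ} (hy : 1 ≤ y)
    {c : Fin d → ℤ} (hc : Close s A B δ' κ C N y c) : Close s A B δ κ C N y c := by
  intro K hyK hKN I hI
  refine (hc K hyK hKN I hI).trans (mul_le_mul_of_nonneg_left ?_ hC.le)
  exact Real.rpow_le_rpow_of_exponent_le (by exact_mod_cast (by omega : 1 ≤ K)) (by linarith)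

theorem almost_mono (A B : Fin r → MvPolynomial (Fin d) ℤ) {δ δ' : ℝ} (h : δ' ≤ δ) {E : ℕ} {x : ℕ → Fin d → ℤ}
    (hx : Almost s A B δ' E x) : Almost s A B δ E x := by
  classical
  obtain ⟨κ, C, hκ, hC, y₀, hy₀, H⟩ := hx
  refine ⟨κ, C, hκ, hC, y₀, hy₀, fun y N hy hN => ?_⟩
  obtain ⟨h1, h2⟩ := H y N hy hN
  refine ⟨le_trans (Nat.cast_le.2 (card_le_card fun t ht => ?_)) h1, le_trans (Nat.cast_le.2 (card_le_card fun t ht => ?_)) h2⟩
  · rw [mem_filter] at ht ⊢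
    exact ⟨ht.1, fun hc => ht.2 (close_mono A B h hC (by omega) hc)⟩
  · rw [mem_filter] at ht ⊢
    exact ⟨ht.1, fun hc => ht.2 (close_mono A B h hC (by omega) hc)⟩

theorem countable_mv (d : ℕ) : Countable (MvPolynomial (Fin d) ℤ) := by
  rw [← Cardinal.mk_le_aleph0_iff]
  refine MvPolynomial.cardinalMk_le_max.trans ?_
  simp

/-- from all the tuples to `AlmostAll` -/
theorem ae_all (Q : (Fin d → ℝ) → Prop) (x : (Fin d → ℝ) → ℕ → Fin d → ℤ)
    (h : ∀ (s r E : ℕ) (δ : ℝ) (A B : Fin r → MvPolynomial (Fin d) ℤ), 1 ≤ s → 0 < δ →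
      ∀ᵐ ξ : Fin d → ℝ, Q ξ → Almost s A B δ E (x ξ)) : ∀ᵐ ξ : Fin d → ℝ, Q ξ → AlmostAll (x ξ) := by
  have := countable_mv d
  have h1 : ∀ᵐ ξ : Fin d → ℝ, ∀ (s r E n : ℕ) (A B : Fin r → MvPolynomial (Fin d) ℤ), 1 ≤ s →
      Q ξ → Almost s A B (1 / ((n : ℝ) + 1)) E (x ξ) := by
    rw [ae_all_iff]
    intro s
    rw [ae_all_iff]
    intro r
    rw [ae_all_iff]
    intro E
    rw [ae_all_iff]
    intro n
    rw [ae_all_iff]
    intro A
    rw [ae_all_iff]
    intro B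
    by_cases hs : 1 ≤ s
    · filter_upwards [h s r E (1 / ((n : ℝ) + 1)) A B hs (by positivity)] with ξ hξ _ hQ
      exact hξ hQ
    · filter_upwards with ξ h' _
      exact absurd h' hs
  filter_upwards [h1] with ξ hξ hQ s r E δ A B hs hδ
  obtain ⟨n, hn⟩ := exists_nat_one_div_lt hδ
  exact almost_mono A B hn.le (hξ s r E n A B hs hQ)

/-- **Thin families.** Let `d ≥ 1` be the number of the parameters.

(1) For all `s ≥ 1`, all `r`-tuples of families `y² = x³ + A_l(c) x + B_l(c)`, `A_l, B_l ∈ ℤ[c_1, ..., c_d]`, all `δ > 0` and all `E`: all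
but the proportion `y ^ (-E)` of the members in any box with sides at least `N`, anywhere, are `Close`: for ALL `K` with `y ≤ K ≤ N ^ κ`
and ALL products of `s r` intervals the number of the `k < K` such that the angles of the `r` curves at the `s` consecutive primes with the
numbers `k, ..., k + s - 1` are in the intervals differs from the expected number by at most `C K ^ (1 / 2 + δ)`.

(2) The same, for all `s, r, δ, E` and all `r`-tuples of families, for the parameters which are the integral parts of generalised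
polynomials with different leading exponents, at the integers `t` and at the primes `t` of `(N, 2 N]`.

(3) The same, for all `s, r, δ, E` and all `r`-tuples of families simultaneously, for almost all members of the families of sequences
`⌊f_l(t)(ξ_l)⌋` (separated derivatives), `⌊ξ_l g_l(t) + h_l(t)⌋` (with `g_l (t + 1) - g_l t ≥ t ^ (ρ - 1)`) and `⌊ξ_l ^ g_l(t) + h_l(t)⌋`
(`g_l` strictly increasing, `ξ_l > 1`), of any growth. -/
theorem result (d : ℕ) (hd : 1 ≤ d) (ρ : ℝ) (hρ : 0 < ρ) (hρ1 : ρ ≤ 1) :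
    (∀ (s r E : ℕ) (δ : ℝ) (A B : Fin r → MvPolynomial (Fin d) ℤ), 1 ≤ s → 0 < δ → Boxes s A B δ E) ∧
    (∀ (f : Fin d → Finset ℝ) (b : Fin d → ℝ → ℝ) (c : Fin d → ℝ), (∀ l, Admissible (f l) (b l) (c l)) → Function.Injective c →
      AlmostAll (fun t l => ⌊∑ e ∈ f l, b l e * (t : ℝ) ^ e⌋)) ∧
    (∀ (u v : Fin d → ℝ) (f : Fin d → ℕ → ℝ → ℝ), (∀ l, Separated ρ (u l) (v l) (f l)) →
      ∀ᵐ ξ : Fin d → ℝ, (∀ l, ξ l ∈ Set.Ioc (u l) (v l)) → AlmostAll (fun t l => ⌊f l t (ξ l)⌋)) ∧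
    (∀ g h : Fin d → ℕ → ℝ, (∀ l, ∀ᶠ t : ℕ in atTop, (t : ℝ) ^ (ρ - 1) ≤ g l (t + 1) - g l t) →
      ∀ᵐ ξ : Fin d → ℝ, AlmostAll (fun t l => ⌊ξ l * g l t + h l t⌋)) ∧
    (∀ (g : Fin d → ℕ → ℕ) (h : Fin d → ℕ → ℝ), (∀ l, StrictMono (g l)) →
      ∀ᵐ ξ : Fin d → ℝ, (∀ l, 1 < ξ l) → AlmostAll (fun t l => ⌊ξ l ^ g l t + h l t⌋)) := by
  have : Nonempty (Fin d) := ⟨⟨0, by omega⟩⟩
  have K := fun (s r E : ℕ) (δ : ℝ) (A B : Fin r → MvPolynomial (Fin d) ℤ) (hs : 1 ≤ s) (hδ : 0 < δ) =>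
    Pool.Agent.Run7.h712.TS.kinds (Close s A B δ) E (fun κ hκ N₀ => main_well hs A B δ hδ E κ hκ N₀) ρ hρ hρ1
  refine ⟨fun s r E δ A B hs hδ => (K s r E δ A B hs hδ).1, ?_, ?_, ?_, ?_⟩
  · intro f b c h1 h2 s r E δ A B hs hδ
    exact (K s r E δ A B hs hδ).2.1 f b c h1 h2
  · intro u v f hf
    exact ae_all (fun ξ => ∀ l, ξ l ∈ Set.Ioc (u l) (v l)) (fun ξ t l => ⌊f l t (ξ l)⌋)
      (fun s r E δ A B hs hδ => (K s r E δ A B hs hδ).2.2.1 u v f hf)
  · intro g h hg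
    have h1 := ae_all (fun _ => True) (fun ξ t l => ⌊ξ l * g l t + h l t⌋)
      (fun s r E δ A B hs hδ => by
        filter_upwards [(K s r E δ A B hs hδ).2.2.2.1 g h hg] with ξ hξ _
        exact hξ)
    filter_upwards [h1] with ξ hξ
    exact hξ trivial
  · intro g h hg
    exact ae_all (fun ξ => ∀ l, 1 < ξ l) (fun ξ t l => ⌊ξ l ^ g l t + h l t⌋)
      (fun s r E δ A B hs hδ => (K s r E δ A B hs hδ).2.2.2.2 g h hg)

end

end Pool.Agent.Results.MP_29be01_nt.ThinFamilies
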