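import Pool.Agent.Run7.h844.RP.PwG2

/-!
# The Frobenius angles at `m` consecutive primes: all boxes, with square-root error against the finite-field model, for
almost all members of one-parameter families of elliptic curves with parameters from the values of generalised polynomials at
primes

From Mathlib: `Nat.nth Nat.Prime k`: the prime with the index `k`, starting with `k = 0`; `Set.OrdConnected`: intervals.

Method: exponential sums over primes with the phase of a generalised polynomial: derivative bounds uniform in the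
coefficients, van der Corput differencing of all orders, bilinear sums, Vaughan's identity (after `Pool.Agent.H895R3.NK`,
`Pool.Agent.H373R2.T7`), with a power saving at all frequencies up to a power, and a discrete Fejér kernel for the passage to
the integer parts (library `Pool.Agent.Run7.h844.RP`). So the values are uniformly distributed in residue classes
with a power saving, for all moduli up to a power. The high moments and the passage to all boxes follow the starting files
(`Pool.Agent.TH869.SQ`), where the arguments are all the integers.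
-/

set_option autoImplicit false

namespace Pool.Agent.Results.MP_29be01_nt.ValuesAtPrimes

open Finset Filter Polynomial

/-- The generalised polynomial `∑ a x * t ^ x`, `x ∈ F`, with real exponents and coefficients. -/
noncomputable def genPoly (F : Finset ℝ) (a : ℝ → ℝ) (t : ℝ) : ℝ := ∑ x ∈ F, a x * t ^ x

/-- `c` is the largest exponent; it is positive and not an integer, and its coefficient is not zero. -/
def Leading (F : Finset ℝ) (a : ℝ → ℝ) (c : ℝ) : Prop :=
  c ∈ F ∧ (∀ x ∈ F, x ≤ c) ∧ 0 < c ∧ (∀ m : ℕ, c ≠ m) ∧ a c ≠ 0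

open Classical in
/-- Almost all the integers `t = ⌊g(q) + z⌋`, where `N < q ≤ 2 N` is prime, up to a proportion of at most `τ` of these primes
`q`, have the property `P`. -/
def Almost (g : ℝ → ℝ) (N : ℕ) (z τ : ℝ) (P : ℤ → Prop) : Prop :=
  (((Ioc N (2 * N)).filter (fun q : ℕ => q.Prime ∧ ¬ P ⌊g q + z⌋)).card : ℝ) ≤
    τ * ((Ioc N (2 * N)).filter Nat.Prime).card

/-- The number of the solutions `(x, y)` of `y² = x³ + A x + B` modulo `p`. -/
def points (p : ℕ) (A B : ℤ) : ℕ :=
  ((range p ×ˢ range p).filter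
    (fun xy : ℕ × ℕ => (p : ℤ) ∣ (xy.2 : ℤ) ^ 2 - ((xy.1 : ℤ) ^ 3 + A * xy.1 + B))).card

/-- The Frobenius angle in `[0, 1]` of the curve `y² = x³ + A x + B` at the prime `p`: it is `θ` with
`2 p ^ (1 / 2) cos (π θ) = p + 1 - #E(F_p) = p - points p A B`, and `1 / 2` if `p ∣ 2 (4 A³ + 27 B²)`. -/
noncomputable def angle (A B : ℤ) (p : ℕ) : ℝ :=
  if (p : ℤ) ∣ 2 * (4 * A ^ 3 + 27 * B ^ 2) then 1 / 2
  else Real.arccos (((p : ℝ) - points p A B) / (2 * Real.sqrt p)) / Real.pi

open Classical in
/-- The number of the `k < K` such that the angles of the curve `y² = x³ + A x + B` at the `s` consecutive primes with the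
numbers `k, ..., k + s - 1` (the primes are numbered from `0`) are in `I 0, ..., I (s - 1)`. -/
noncomputable def boxCount {s : ℕ} (A B : ℤ) (I : Fin s → Set ℝ) (K : ℕ) : ℕ :=
  ((range K).filter (fun k => ∀ i : Fin s, angle A B (Nat.nth Nat.Prime (k + i)) ∈ I i)).card

open Classical in
/-- The proportion of the residues `t` modulo `p` for which the angle of `y² = x³ + a(t) x + b(t)` at `p` is in `S`. -/
noncomputable def proportion (a b : ℤ[X]) (p : ℕ) (S : Set ℝ) : ℝ :=
  ((range p).filter (fun t : ℕ => angle (a.eval (t : ℤ)) (b.eval (t : ℤ)) p ∈ S)).card / p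

/-- The expected number: the sum over `k < K` of the product of the proportions at the `s` primes. -/
noncomputable def boxModel {s : ℕ} (a b : ℤ[X]) (I : Fin s → Set ℝ) (K : ℕ) : ℝ :=
  ∑ k ∈ range K, ∏ i : Fin s, proportion a b (Nat.nth Nat.Prime (k + i)) (I i)

theorem points_congr (p : ℕ) {A A' B B' : ℤ} (hA : (p : ℤ) ∣ A - A') (hB : (p : ℤ) ∣ B - B') :
    points p A B = points p A' B' := by
  unfold points
  congr 1
  apply filter_congr
  intro xy _
  have h : (p : ℤ) ∣ ((xy.2 : ℤ) ^ 2 - ((xy.1 : ℤ) ^ 3 + A * xy.1 + B)) -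
      ((xy.2 : ℤ) ^ 2 - ((xy.1 : ℤ) ^ 3 + A' * xy.1 + B')) := by
    have e : ((xy.2 : ℤ) ^ 2 - ((xy.1 : ℤ) ^ 3 + A * xy.1 + B)) -
      ((xy.2 : ℤ) ^ 2 - ((xy.1 : ℤ) ^ 3 + A' * xy.1 + B')) = -((A - A') * xy.1 + (B - B')) := by ring
    rw [e]
    exact (dvd_add (hA.mul_right _) hB).neg_right
  exact (dvd_iff_dvd_of_dvd_sub h)

theorem angle_congr (p : ℕ) {A A' B B' : ℤ} (hA : (p : ℤ) ∣ A - A') (hB : (p : ℤ) ∣ B - B') :
    angle A B p = angle A' B' p := by
  unfold angle
  rw [points_congr p hA hB]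
  have h : (p : ℤ) ∣ 2 * (4 * A ^ 3 + 27 * B ^ 2) - 2 * (4 * A' ^ 3 + 27 * B' ^ 2) := by
    have e : 2 * (4 * A ^ 3 + 27 * B ^ 2) - 2 * (4 * A' ^ 3 + 27 * B' ^ 2) =
      (A - A') * (8 * (A ^ 2 + A * A' + A' ^ 2)) + (B - B') * (54 * (B + B')) := by ring
    rw [e]
    exact dvd_add (hA.mul_right _) (hB.mul_right _)
  have h2 := dvd_iff_dvd_of_dvd_sub h
  by_cases h3 : (p : ℤ) ∣ 2 * (4 * A ^ 3 + 27 * B ^ 2)
  · rw [if_pos h3, if_pos (h2.mp h3)]
  · rw [if_neg h3, if_neg (fun h4 => h3 (h2.mpr h4))]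


/-- Let `g(t) = ∑ b x t ^ x` be a generalised polynomial whose largest exponent `c` is positive and not an integer, and let
`m ≥ 1` and `δ > 0`. There are `θ > 0` and `C` such that for all sufficiently large `N`, all real numbers `z` and ALL polynomials
`A, B ∈ ℤ[T]`, almost all the integers `t = ⌊g(q) + z⌋`, where `q` runs over the primes `N < q ≤ 2 N`, up to a proportion of at
most `N ^ (-θ)` of the `q`, have the following property: for every `K ≤ N ^ θ` and every product of `m` intervals, the number of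
the `k < K` such that the Frobenius angles of the elliptic curve `y² = x³ + A(t) x + B(t)` at the `m` consecutive primes with
the numbers `k, ..., k + m - 1` are in the intervals differs from the expected number (the sum over `k < K` of the product of
the proportions for the residues modulo these primes) by at most `C K ^ (1 / 2 + δ) (1 + log N) ^ (1 / 2)`. -/
theorem result (F : Finset ℝ) (b : ℝ → ℝ) (c : ℝ) (hF : Leading F b c) :
    ∀ m : ℕ, 1 ≤ m → ∀ δ : ℝ, 0 < δ → ∃ θ C : ℝ, 0 < θ ∧ 0 < C ∧ ∃ N₀ : ℕ, ∀ N : ℕ, N₀ ≤ N → ∀ (z : ℝ) (A B : ℤ[X]),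
        Almost (genPoly F b) N z ((N : ℝ) ^ (-θ)) (fun t => ∀ K : ℕ, (K : ℝ) ≤ (N : ℝ) ^ θ →
          ∀ I : Fin m → Set ℝ, (∀ i, (I i).OrdConnected) →
            |(boxCount (A.eval t) (B.eval t) I K : ℝ) - boxModel A B I K| ≤
              C * ((K : ℝ) ^ (1 / 2 + δ) * √(1 + Real.log N))) := by
  classical
  intro m hm δ hδ
  obtain ⟨θ, C, h1, h2, N₀, H⟩ := Pool.Agent.Run7.h844.RP.primes_consec F c hF.1 hF.2.2.2.1 hF.2.2.1 hF.2.1 b hF.2.2.2.2 m hm
    δ hδ
  refine ⟨θ, C, h1, h2, N₀, fun N hN z A B => ?_⟩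
  have hE := H N hN (fun p n => angle (A.eval n) (B.eval n) p) (by
    intro p n
    have e : (n + p : ℤ) - n = p := by ring
    have hd : ∀ f : ℤ[X], (p : ℤ) ∣ f.eval (n + p : ℤ) - f.eval n := by
      intro f
      have := f.sub_dvd_eval_sub (n + p : ℤ) n
      rwa [e] at this
    exact angle_congr p (hd A) (hd B)) z
  unfold Almost
  refine le_trans (Nat.cast_le.2 (card_le_card fun n hn => ?_)) hE
  rw [mem_filter] at hn
  rw [mem_filter, Pool.Agent.Run7.h844.RP.PB, mem_filter]
  refine ⟨⟨hn.1, hn.2.1⟩, fun hcon => hn.2.2 ?_⟩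
  intro K hK I hI
  have h := hcon K hK I hI
  rw [sum_sub_distrib] at h
  have e1 : (boxCount (A.eval ⌊genPoly F b n + z⌋) (B.eval ⌊genPoly F b n + z⌋) I K : ℝ) = ∑ k ∈ range K,
      Pool.Agent.TH869.SQ.ind I (fun i : Fin m =>
        angle (A.eval (Pool.Agent.Run7.h844.RP.vz F b z n)) (B.eval (Pool.Agent.Run7.h844.RP.vz F b z n))
          (Pool.Agent.TH869.SQ.pr (k + i))) := by
    unfold boxCount Pool.Agent.TH869.SQ.ind Pool.Agent.TH869.SQ.pr
    rw [sum_boole]
    rfl
  have e2 : boxModel A B I K = ∑ k ∈ range K, ∏ i : Fin m,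
      Pool.Agent.TH869.SQ.mean (Pool.Agent.TH869.SQ.pr (k + i)) (fun t =>
        Pool.Agent.TH869.SQ.ind1 (I i)
          (angle (A.eval (t : ℤ)) (B.eval (t : ℤ)) (Pool.Agent.TH869.SQ.pr (k + i)))) := by
    unfold boxModel proportion Pool.Agent.TH869.SQ.mean Pool.Agent.TH869.SQ.ind1 Pool.Agent.TH869.SQ.pr
    refine sum_congr rfl fun k _ => prod_congr rfl fun i _ => ?_
    rw [sum_boole]
  rw [e1, e2]
  exact h

end Pool.Agent.Results.MP_29be01_nt.ValuesAtPrimes
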