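import Pool.Agent.Run7.h672.CC.H
import Pool.Agent.N794.CG.Eng
import Pool.Agent.R459.Bsd4

/-!
# The Frobenius angles of the curves `y² = x³ + A x + n`, with a random integer `n` written by independent random words: all
intervals and all ranges of primes, with square-root error against the finite-field model

The definitions `len`, `Words`, `cat`, `noRest`, `cutWord`, `WordLaw` are in `Pool.Agent.Run7.h672.CC.Defs`.

Method: the exponential sums of the random integer are small at all frequencies with many places far from the integers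
(`word_decays` in `Pool.Agent.Run7.h672.CC`, by a strong renewal theorem and the exchange of two words which do not commute). The
passage from such exponential sums to sums over primes of functions of residues, for almost all members of a family, is from
the starting library (`Pool.Agent.R459.Eq`, `Pool.Agent.N794.CG`).

Definitions used: in `Pool.Agent.W263.BSD` (file `Pool/Agent/W263/BSD/Defs.lean`): `pointCount a n p` is the number of the
solutions of `y² = x³ + a x + n` modulo `p`, `GoodPrime a n p`: `p` is a prime which does not divide `2 (4 a³ + 27 n²)`.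
-/

set_option autoImplicit false

namespace Pool.Agent.Results.MP_29be01_nt.WordCurves

open Finset Filter Pool.Agent.R459.Eq Pool.Agent.N794.CG Pool.Agent.Run7.h672.CC
open Pool.Agent.W263.BSD (GoodPrime pointCount)

open Classical in
/-- The Frobenius angle in `[0, 1]` of the curve `y² = x³ + a x + n` at the prime `p`: it is `θ` with
`2 p ^ (1 / 2) cos (π θ) = p + 1 - #E(F_p)`, and `1 / 2` if `p` divides `2 (4 a³ + 27 n²)`. -/
noncomputable def angle (a n : ℤ) (p : ℕ) : ℝ :=
  if GoodPrime a n p then Real.arccos (((p : ℝ) - pointCount a n p) / (2 * √(p : ℝ))) / Real.pi else 1 / 2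

open Classical in
/-- The number of the primes `p ≤ x` whose angle is in `[u, u')`. -/
noncomputable def count (a n : ℤ) (u u' : ℝ) (x : ℕ) : ℕ :=
  ((range (x + 1)).filter (fun p => p.Prime ∧ u ≤ angle a n p ∧ angle a n p < u')).card

open Classical in
/-- The sum over the primes `p ≤ x` of the proportion of the residues `ν` modulo `p` for which the angle of `y² = x³ + a x + ν`
is in `[u, u')`. -/
noncomputable def model (a : ℤ) (u u' : ℝ) (x : ℕ) : ℝ :=
  ∑ p ∈ (range (x + 1)).filter Nat.Prime,
    (((range p).filter (fun ν : ℕ => u ≤ angle a ν p ∧ angle a ν p < u')).card : ℝ) / p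

lemma angle_per (a : ℤ) (p : ℕ) (_ : p.Prime) (n n' : ℤ) (h : (p : ℤ) ∣ n - n') : angle a n p = angle a n' p := by
  have e2 : ((n : ℤ) : ZMod p) = ((n' : ℤ) : ZMod p) := by
    rw [← sub_eq_zero, ← Int.cast_sub, ZMod.intCast_zmod_eq_zero_iff_dvd]
    exact h
  have h1 : GoodPrime a n p ↔ GoodPrime a n' p := by
    unfold GoodPrime
    rw [← ZMod.intCast_zmod_eq_zero_iff_dvd, ← ZMod.intCast_zmod_eq_zero_iff_dvd]
    push_cast
    rw [e2]
  have h2 : pointCount a n p = pointCount a n' p := by
    unfold pointCount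
    rw [e2]
  unfold angle
  rw [h2]
  by_cases h3 : GoodPrime a n p
  · rw [if_pos h3, if_pos (h1.1 h3)]
  · rw [if_neg h3, if_neg (fun h4 => h3 (h1.2 h4))]

lemma count_eq (a n : ℤ) {u u' : ℝ} (h : u ≤ u') (x : ℕ) :
    (count a n u u' x : ℝ) = (cntA (fun p n => angle a n p) n x u' : ℝ) - cntA (fun p n => angle a n p) n x u := by
  classical
  have e : (pri x).filter (fun p => angle a n p < u') =
      (pri x).filter (fun p => angle a n p < u) ∪
        (range (x + 1)).filter (fun p => p.Prime ∧ u ≤ angle a n p ∧ angle a n p < u') := by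
    ext p
    simp only [mem_filter, mem_union, mem_range, mem_pri]
    constructor
    · rintro ⟨⟨h1, h2⟩, h3⟩
      rcases lt_or_ge (angle a n p) u with h4 | h4
      · exact Or.inl ⟨⟨h1, h2⟩, h4⟩
      · exact Or.inr ⟨by omega, h2, h4, h3⟩
    · rintro (⟨⟨h1, h2⟩, h3⟩ | ⟨h1, h2, h3, h4⟩)
      · exact ⟨⟨h1, h2⟩, lt_of_lt_of_le h3 h⟩
      · exact ⟨⟨by omega, h2⟩, h4⟩
  have hd : Disjoint ((pri x).filter (fun p => angle a n p < u))
      ((range (x + 1)).filter (fun p => p.Prime ∧ u ≤ angle a n p ∧ angle a n p < u')) := by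
    rw [disjoint_left]
    intro p h1 h2
    exact absurd (mem_filter.1 h1).2 (not_lt.2 (mem_filter.1 h2).2.2.1)
  unfold cntA count
  rw [e, card_union_of_disjoint hd]
  push_cast
  ring

lemma model_eq (a : ℤ) {u u' : ℝ} (h : u ≤ u') (x : ℕ) :
    model a u u' x = ∑ p ∈ pri x, prp (fun p n => angle a n p) p u' - ∑ p ∈ pri x, prp (fun p n => angle a n p) p u := by
  classical
  have e : (range (x + 1)).filter Nat.Prime = pri x := by
    unfold pri
    congr!
  unfold model
  rw [e, ← sum_sub_distrib]
  apply sum_congr rfl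
  intro p _
  have e : (range p).filter (fun t : ℕ => angle a t p < u') =
      (range p).filter (fun t : ℕ => angle a t p < u) ∪
        (range p).filter (fun t : ℕ => u ≤ angle a t p ∧ angle a t p < u') := by
    ext t
    simp only [mem_filter, mem_union, mem_range]
    constructor
    · rintro ⟨h1, h3⟩
      rcases lt_or_ge (angle a t p) u with h4 | h4
      · exact Or.inl ⟨h1, h4⟩
      · exact Or.inr ⟨h1, h4, h3⟩
    · rintro (⟨h1, h3⟩ | ⟨h1, h3, h4⟩)
      · exact ⟨h1, lt_of_lt_of_le h3 h⟩
      · exact ⟨h1, h4⟩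
  have hd : Disjoint ((range p).filter (fun t : ℕ => angle a t p < u))
      ((range p).filter (fun t : ℕ => u ≤ angle a t p ∧ angle a t p < u')) := by
    rw [disjoint_left]
    intro t h1 h2
    exact absurd (mem_filter.1 h1).2 (not_lt.2 (mem_filter.1 h2).2.1)
  unfold prp
  rw [e, card_union_of_disjoint hd]
  push_cast
  ring

open Classical in
/-- Let `q` be the law of a random word in base `b` (`Words b q`) and `0 < δ ≤ 1 / 2`. There is `W` such that for `κ ≠ 0` and all
sufficiently large `X` the following holds for all `k`, all laws `w` of random integers `v < b ^ k` written by independent random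
words (`WordLaw`) and ALL integers `A`, `c`.

With probability at least `1 - X ^ (- δ)` the curve `E : y² = x³ + A x + n`, `n = c + κ v`, has the following property for ALL
`x ≥ X` with `x ^ W ≤ b ^ k` and ALL intervals `[u, u')`: the number of the primes `p ≤ x` whose Frobenius angle is in `[u, u')` differs from
the sum over `p ≤ x` of the proportion of the residues `ν` modulo `p` for which the angle of `y² = x³ + A x + ν` is in `[u, u')`
by at most `2 x ^ (1 / 2 + δ)`. -/
theorem result (b : ℕ) (q : ℕ → ℕ → ℝ) (hq : Words b q) (δ : ℝ) (hδ : 0 < δ) (hδ1 : δ ≤ 1 / 2) : ∃ W : ℕ, 1 ≤ W ∧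
    ∀ κ : ℤ, κ ≠ 0 → ∃ X₀ : ℕ, ∀ X : ℕ, X₀ ≤ X → ∀ (k : ℕ) (w : ℕ → ℝ), WordLaw b q k w → ∀ A c : ℤ,
      ∑ v ∈ (range (b ^ k)).filter (fun v : ℕ => ¬ ∀ x : ℕ, X ≤ x → x ^ W ≤ b ^ k → ∀ u u' : ℝ, u ≤ u' →
        |(count A (c + κ * (v : ℕ)) u u' x : ℝ) - model A u u' x| ≤ 2 * (x : ℝ) ^ (1 / 2 + δ)), w v ≤ (X : ℝ) ^ (-δ) := by
  obtain ⟨F, A₀, γ, hF, hγ0, hγ1, hdec⟩ := word_decays hq
  obtain ⟨W, hW, J⟩ := eng_ang δ hδ hδ1 b hq.two A₀ γ hγ0 hγ1
  refine ⟨W, hW, fun κ hκ => ?_⟩
  obtain ⟨X₀, K⟩ := J F κ hF hκ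
  refine ⟨X₀, fun X hX k w hw A c => ?_⟩
  have h1 := K X hX k _ _ _ _ _ (dom_of_decays (hdec k w hw κ c))
    ⟨fun p n => angle A n p, fun p hp m n h => angle_per A p hp m n h⟩
  rw [one_mul] at h1
  refine h1 _ (filter_subset _ _) fun v hv hP => (mem_filter.1 hv).2 ?_
  intro x hx hxW u u' huu
  have h2 := hP x hx hxW
  have h3 := h2 u
  have h4 := h2 u'
  simp only at h3 h4
  rw [count_eq _ _ huu, model_eq _ huu]
  rw [abs_le] at h3 h4 ⊢
  constructor <;> linarith [h3.1, h3.2, h4.1, h4.2]

end Pool.Agent.Results.MP_29be01_nt.WordCurves
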